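import Pool.Agent.MWGI.StmtsC

set_option autoImplicit false

/-!
Row MWR of block MWGI (MP_23468a_al): the edge `Re` gives the move `REo`.
-/

namespace Pool.Agent.MWGI.H8

open Pool.Agent.Helper14_MV Pool.Agent.Helper2_MV Pool.Agent.MVO Pool.Agent.MWL Pool.Agent.MWS
  Pool.Agent.MWH

/-- repeated insertion of `x^n` between two occurrences of `x` -/
theorem itm {n : ℕ} {θ : FIC} (h : It n (RR θ)) (p w q : List ℕ) (x : ℕ)
    (hw : ∀ c ∈ w, 2 ≤ (p ++ x :: (w ++ x :: q)).count c) (m : ℕ) :
    RR θ (p ++ x :: (w ++ x :: q)) (p ++ x :: (List.replicate (n * m) x ++ (w ++ x :: q))) := by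
  induction m with
  | zero =>
    simp only [Nat.mul_zero, List.replicate_zero, List.nil_append]
    exact RR.refl _
  | succ m ih =>
    refine θ.trans ih ?_
    have h1 := h p (List.replicate (n * m) x) w q x (by
      intro c hc
      rcases List.mem_append.1 hc with hc | hc
      · rw [List.eq_of_mem_replicate hc]
        simp only [List.count_append, List.count_cons_self]
        omega
      · have h2 := hw c hc
        simp only [List.count_append, List.count_cons] at h2 ⊢
        omega)
    have e : List.replicate (n * (m + 1)) x = List.replicate (n * m) x ++ List.replicate n x := by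
      rw [← List.replicate_add, Nat.mul_succ]
    rw [e, List.append_assoc]
    exact h1

theorem deg_le' {k : ℕ} {a b : ℕ → ℕ} (h : ∀ j ≤ k, a j ≤ b j) : deg k a ≤ deg k b := by
  unfold deg
  exact Finset.sum_le_sum (fun j hj => h j (by rw [Finset.mem_range] at hj; omega))

/-- the blocks `j ≠ i` with `x` get `x^m` inserted -/
def gg (i x m : ℕ) (C P Q : ℕ → List ℕ) (L : List ℕ) : ℕ → List ℕ := fun j =>
  if j = i then L else if x ∈ C j then P j ++ x :: (List.replicate m x ++ Q j) else C j

/-- insertion of `x^(n m)` in all blocks `j ≠ i` which contain `x` -/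
theorem rr_gg {n k : ℕ} {θ : FIC} (h : It n (RR θ)) (C P Q : ℕ → List ℕ) (i x m : ℕ) (L : List ℕ)
    (hok : BlkOk k C)
    (hsp : ∀ j ≤ k, x ∈ C j → C j = P j ++ x :: Q j ∧ (j ≠ i → x ∈ Q j))
    (hmu : ∀ j ≤ k, j ≠ i → ∀ c ∈ C j, 2 ≤ (asm k (Function.update C i L)).count c) :
    RR θ (asm k (Function.update C i L)) (asm k (gg i x (n * m) C P Q L)) := by
  have main : ∀ s, s ≤ k + 1 → RR θ (asm k (Function.update C i L))
      (asm k (fun j => if j < s then gg i x (n * m) C P Q L j else Function.update C i L j)) := by
    intro s
    induction s with
    | zero =>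
      intro _
      have e : (fun j => if j < 0 then gg i x (n * m) C P Q L j else Function.update C i L j) =
          Function.update C i L := by
        funext j
        rw [if_neg (by omega)]
      rw [e]
      exact RR.refl _
    | succ s ih =>
      intro hs
      have h1 := ih (by omega)
      refine θ.trans h1 ?_
      by_cases hsi : s = i ∨ x ∉ C s
      · have e : (fun j => if j < s + 1 then gg i x (n * m) C P Q L j
            else Function.update C i L j) =
            (fun j => if j < s then gg i x (n * m) C P Q L j else Function.update C i L j) := by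
          funext j
          by_cases hj : j < s
          · rw [if_pos hj, if_pos (by omega)]
          · rw [if_neg hj]
            by_cases hj' : j = s
            · subst hj'
              rw [if_pos (by omega)]
              unfold gg
              rcases hsi with hsi | hsi
              · subst hsi
                rw [if_pos rfl, Function.update_self]
              · by_cases hji : j = i
                · subst hji
                  rw [if_pos rfl, Function.update_self]
                · rw [if_neg hji, if_neg hsi, Function.update_of_ne hji]
            · rw [if_neg (by omega)]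
        rw [e]
        exact RR.refl _
      · have hsi1 : s ≠ i := fun h => hsi (Or.inl h)
        have hsi2 : x ∈ C s := by
          by_contra h
          exact hsi (Or.inr h)
        obtain ⟨hc, hq⟩ := hsp s (by omega) hsi2
        obtain ⟨w, q, hwq⟩ := List.append_of_mem (hq hsi1)
        set E : ℕ → List ℕ := fun j => if j < s then gg i x (n * m) C P Q L j
          else Function.update C i L j with hE
        have hEs : E s = C s := by
          simp only [hE]
          rw [if_neg (by omega), Function.update_of_ne hsi1]
        have e : (fun j => if j < s + 1 then gg i x (n * m) C P Q L j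
            else Function.update C i L j) =
            Function.update E s (P s ++ x :: (List.replicate (n * m) x ++ Q s)) := by
          funext j
          by_cases hj : j < s
          · rw [if_pos (by omega), Function.update_of_ne (by omega)]
            simp only [hE]
            rw [if_pos hj]
          · by_cases hj' : j = s
            · subst hj'
              rw [if_pos (by omega), Function.update_self]
              unfold gg
              rw [if_neg hsi1, if_pos hsi2]
            · rw [if_neg (by omega), Function.update_of_ne hj']
              simp only [hE]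
              rw [if_neg hj]
        rw [e, asm_split (by omega : s ≤ k) E, asm_update (by omega : s ≤ k) E, hEs, hc, hwq]
        have hcount : ∀ c ∈ w, 2 ≤ (pre E s ++ (P s ++ x :: (w ++ x :: q)) ++
            suf E s (k - s)).count c := by
          intro c hcw
          have hcs : c ∈ C s := by
            rw [hc, hwq]
            simp [hcw]
          have hNS := hok s (by omega) c hcs
          have h2 := hmu s (by omega) hsi1 c hcs
          have e2 : pre E s ++ (P s ++ x :: (w ++ x :: q)) ++ suf E s (k - s) = asm k E := by
            rw [asm_split (by omega : s ≤ k) E, hEs, hc, hwq]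
          rw [e2, count_asm hNS]
          rw [count_asm hNS] at h2
          refine h2.trans (deg_le' ?_)
          intro j hj
          simp only [hE]
          by_cases hjs : j < s
          · rw [if_pos hjs]
            unfold gg
            by_cases hji : j = i
            · subst hji
              rw [if_pos rfl, Function.update_self]
            · rw [if_neg hji, Function.update_of_ne hji]
              by_cases hx : x ∈ C j
              · rw [if_pos hx]
                rw [(hsp j hj hx).1]
                simp only [List.count_append, List.count_cons]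
                omega
              · rw [if_neg hx]
          · rw [if_neg hjs]
        have h3 := itm h (pre E s ++ P s) w (q ++ suf E s (k - s)) x (by
          intro c hcw
          have h4 := hcount c hcw
          simp only [List.count_append, List.count_cons] at h4 ⊢
          omega) m
        simp only [List.append_assoc, List.cons_append] at h3 ⊢
        exact h3
  have h2 := main (k + 1) (le_refl _)
  have e : asm k (fun j => if j < k + 1 then gg i x (n * m) C P Q L j
      else Function.update C i L j) = asm k (gg i x (n * m) C P Q L) := by
    apply asm_congr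
    intro j hj
    rw [if_pos (by omega)]
  rw [e] at h2
  exact h2

theorem blkOk_wz (n k i p : ℕ) (Z : ℕ → Bool) (u v : ℕ) : BlkOk k (wz n i p Z u v) := by
  intro j _ c hc
  have h : c = 0 ∨ c = 1 := by
    unfold wz at hc
    split_ifs at hc
    · simp only [List.mem_append, List.mem_cons, List.mem_replicate] at hc
      omega
    · simp only [List.mem_singleton] at hc
      omega
    · simp only [List.mem_replicate] at hc
      omega
    · simp at hc
  unfold NS
  omega

/-- the substitution `0 ↦ x`, `1 ↦ a` -/
def s2 (x a : ℕ) : ℕ → List ℕ := fun c => if c = 0 then [x] else [a]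

theorem s2_rep (x a u : ℕ) : (List.replicate u 0).flatMap (s2 x a) = List.replicate u x := by
  induction u with
  | zero => rfl
  | succ u ih =>
    rw [List.replicate_succ, List.flatMap_cons, ih, List.replicate_succ]
    rfl

/-- substitution into the canonical words -/
theorem rr_wz {n k i p : ℕ} {θ : FIC} {Z : ℕ → Bool} {u v u' v' : ℕ} (x a : ℕ)
    (hip : i ≠ p) (h : Wz n k i p Z u v u' v' (RR θ)) (C P Q : ℕ → List ℕ) (A D Pp Qp : List ℕ)
    (hp : C p = Pp ++ a :: Qp) (hxp : x ∉ C p)
    (hZ : ∀ j ≤ k, j ≠ i → j ≠ p → (Z j = true ↔ x ∈ C j)) :
    RR θ (asm k (gg i x (2 * n) C P Q (A ++ (List.replicate u x ++ a :: (List.replicate v x ++ D)))))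
      (asm k (gg i x (2 * n) C P Q
        (A ++ (List.replicate u' x ++ a :: (List.replicate v' x ++ D))))) := by
  have h1 := rr_ins θ
    (fun j => if j = i then A else if j = p then Pp else if x ∈ C j then P j ++ [x] else C j)
    (fun j => if j = i then D else if j = p then Qp else if x ∈ C j then Q j else [])
    (s2 x a) (blkOk_wz n k i p Z u v) (blkOk_wz n k i p Z u' v') h
  have key : ∀ u v : ℕ, asm k (fun j =>
      (if j = i then A else if j = p then Pp else if x ∈ C j then P j ++ [x] else C j) ++
        (wz n i p Z u v j).flatMap (s2 x a) ++
        (if j = i then D else if j = p then Qp else if x ∈ C j then Q j else [])) =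
      asm k (gg i x (2 * n) C P Q
        (A ++ (List.replicate u x ++ a :: (List.replicate v x ++ D)))) := by
    intro u v
    apply asm_congr
    intro j hj
    unfold gg wz
    by_cases hji : j = i
    · subst hji
      simp only [if_true]
      rw [List.flatMap_append, List.flatMap_cons, s2_rep, s2_rep]
      simp [s2]
    · simp only [if_neg hji]
      by_cases hjp : j = p
      · subst hjp
        simp only [if_true]
        rw [if_neg hxp, hp]
        simp [s2]
      · simp only [if_neg hjp]
        by_cases hx : x ∈ C j
        · have hz := (hZ j hj hji hjp).2 hx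
          rw [if_pos hx, if_pos hx, if_pos hx, hz]
          simp only [if_true]
          rw [s2_rep]
          simp
        · have hz : Z j = false := by
            by_contra h
            exact hx ((hZ j hj hji hjp).1 (by simpa using h))
          rw [if_neg hx, if_neg hx, if_neg hx, hz]
          simp
  rw [key, key] at h1
  exact h1

theorem two_split {x : ℕ} : ∀ l : List ℕ, 2 ≤ l.count x → ∃ P Q, l = P ++ x :: Q ∧ x ∈ Q := by
  intro l
  induction l with
  | nil =>
    intro h
    simp at h
  | cons c l ih =>
    intro h
    by_cases hc : c = x
    · subst hc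
      rw [List.count_cons_self] at h
      exact ⟨[], l, rfl, List.count_pos_iff.1 (by omega)⟩
    · rw [List.count_cons_of_ne hc] at h
      obtain ⟨P, Q, h1, h2⟩ := ih h
      exact ⟨c :: P, Q, by rw [h1]; rfl, h2⟩

/-- the data of an active pair -/
theorem act_data {k : ℕ} {C : ℕ → List ℕ} {i p x a : ℕ} (hA : Act k C i p x a) :
    ∃ (P Q : ℕ → List ℕ) (Pp Qp : List ℕ), C p = Pp ++ a :: Qp ∧
      (∀ j ≤ k, x ∈ C j → C j = P j ++ x :: Q j ∧ x ∈ Q j) := by
  have h1 : ∀ j, ∃ PQ : List ℕ × List ℕ, j ≤ k → x ∈ C j → C j = PQ.1 ++ x :: PQ.2 ∧ x ∈ PQ.2 := by
    intro j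
    by_cases hj : j ≤ k ∧ x ∈ C j
    · have h2 : 2 ≤ (C j).count x := by
        rcases hA.hx j hj.1 with h | h
        · exact absurd hj.2 (List.count_eq_zero.1 h)
        · exact h
      obtain ⟨P, Q, h3, h4⟩ := two_split _ h2
      exact ⟨(P, Q), fun _ _ => ⟨h3, h4⟩⟩
    · exact ⟨([], []), fun h2 h3 => absurd ⟨h2, h3⟩ hj⟩
  choose PQ hPQ using h1
  have hap : a ∈ C p := List.count_pos_iff.1 (by rw [hA.ap]; omega)
  obtain ⟨Pp, Qp, hp⟩ := List.append_of_mem hap
  exact ⟨fun j => (PQ j).1, fun j => (PQ j).2, Pp, Qp, hp, hPQ⟩

/-- the word with block `i` changed -/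
theorem wd_eq {k i : ℕ} (h : i ≤ k) (C : ℕ → List ℕ) (L : List ℕ) :
    Wd (pre C i) (suf C i (k - i)) L = asm k (Function.update C i L) := by
  rw [asm_update h]
  unfold Wd
  rw [List.append_assoc]

/-- the letters of the other blocks are multiple -/
theorem mu_other {k i : ℕ} {H L L' : List ℕ} {C : ℕ → List ℕ} (hi : i ≤ k) (hok : BlkOk k C)
    (hO : Ok1 k H (pre C i) (suf C i (k - i)) L) (hL : ∀ c, L.count c ≤ L'.count c) :
    ∀ j ≤ k, j ≠ i → ∀ c ∈ C j, 2 ≤ (asm k (Function.update C i L')).count c := by
  intro j hj hji c hc
  have h1 : c ∈ pre C i ++ suf C i (k - i) := by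
    rw [List.mem_append, mem_pre, mem_suf]
    rcases lt_or_gt_of_ne hji with h | h
    · exact Or.inl (Or.inr ⟨j, h, hc⟩)
    · exact Or.inr (Or.inr ⟨j, h, by omega, hc⟩)
  have h2 := hO.mu c h1 (hok j hj c hc)
  have h3 := hL c
  rw [asm_update hi]
  simp only [List.count_append] at h2 ⊢
  omega

theorem mwr : MwrStmt := by
  intro n k θ C hBI hOk i p x a hA Z hZ hRe H haH A D hO
  obtain ⟨P, Q, Pp, Qp, hp, hsp⟩ := act_data hA
  have hi := hA.ik
  have hsp' : ∀ j ≤ k, x ∈ C j → C j = P j ++ x :: Q j ∧ (j ≠ i → x ∈ Q j) :=
    fun j hj hx => ⟨(hsp j hj hx).1, fun _ => (hsp j hj hx).2⟩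
  -- the second power of `x` may be replaced
  have hper : ∀ A' D' : List ℕ, RR θ (A' ++ x :: x :: D')
      (A' ++ x :: x :: (List.replicate (2 * n) x ++ D')) := by
    intro A' D'
    have h1 : RR θ (List.replicate 2 x) (List.replicate (n + 2) x) := by
      have h := RR.sub (fun _ => [x]) hBI.per
      have e : ∀ m : ℕ, (List.replicate m 0).flatMap (fun _ => [x]) = List.replicate m x := by
        intro m
        induction m with
        | zero => rfl
        | succ m ih => rw [List.replicate_succ, List.flatMap_cons, ih, List.replicate_succ]; rfl
      rw [e, e] at h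
      exact h
    have h2 : RR θ (List.replicate (n + 2) x) (List.replicate (2 + 2 * n) x) := by
      have h := h1.append (RR.refl (β := θ) (List.replicate n x))
      rw [← List.replicate_add, ← List.replicate_add] at h
      have e1 : 2 + n = n + 2 := by omega
      have e2 : n + 2 + n = 2 + 2 * n := by omega
      rw [e1, e2] at h
      exact h
    have h3 := θ.trans h1 h2
    have h4 := ((RR.refl (β := θ) A').append h3).append (RR.refl (β := θ) D')
    rw [List.replicate_add] at h4
    simpa only [List.append_assoc, List.replicate_succ, List.replicate_zero, List.cons_append,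
      List.nil_append] using h4
  rw [wd_eq hi, wd_eq hi]
  set L1 := A ++ x :: x :: a :: D with hL1
  set L2 := (A ++ [x, x]) ++ (List.replicate (2 * n) x ++ a :: (List.replicate 0 x ++ D)) with hL2
  set L3 := (A ++ [x, x]) ++
    (List.replicate (2 * n) x ++ a :: (List.replicate (2 * n) x ++ D)) with hL3
  set L4 := A ++ x :: x :: a :: (List.replicate n x ++ D) with hL4
  -- multiplicities
  have hc12 : ∀ c, L1.count c ≤ L2.count c := by
    intro c
    simp only [hL1, hL2, List.count_append, List.count_cons, List.replicate_zero,
      List.nil_append, List.count_nil]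
    omega
  have hc13 : ∀ c, L1.count c ≤ L3.count c := by
    intro c
    simp only [hL1, hL3, List.count_append, List.count_cons, List.count_nil]
    omega
  have s1 : RR θ (asm k (Function.update C i L1)) (asm k (Function.update C i L2)) := by
    rw [← wd_eq hi, ← wd_eq hi]
    unfold Wd
    have h := hper (pre C i ++ A) (a :: (D ++ suf C i (k - i)))
    simp only [hL1, hL2, List.append_assoc, List.cons_append, List.nil_append,
      List.replicate_zero] at h ⊢
    exact h
  have s2' := rr_gg hBI.it C P Q i x 2 L2 hOk.ok hsp' (mu_other hi hOk.ok hO hc12)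
  have s4' := rr_gg hBI.it C P Q i x 2 L3 hOk.ok hsp' (mu_other hi hOk.ok hO hc13)
  have s3' := rr_wz x a hA.ip hRe C P Q (A ++ [x, x]) D Pp Qp hp hA.xp hZ
  have e2 : n * 2 = 2 * n := by omega
  rw [e2] at s2' s4'
  -- the last step: `it` and `per` in block `i`
  have s5 : RR θ (asm k (Function.update C i L3)) (asm k (Function.update C i L4)) := by
    rw [← wd_eq hi, ← wd_eq hi]
    unfold Wd
    have ha2 : 2 ≤ (pre C i ++ ((A ++ [x, x]) ++ a :: (List.replicate n x ++ D) ++
        suf C i (k - i))).count a := by
      have h1 := hO.lt a (by simp [hL1]) haH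
      have h2 : 1 ≤ (pre C i ++ suf C i (k - i)).count a := by
        apply List.count_pos_iff.2
        rw [List.mem_append]
        exact h1.2.2
      simp only [List.count_append, List.count_cons_self] at h2 ⊢
      omega
    have h6 : RR θ (pre C i ++ (A ++ x :: x :: (a :: (List.replicate n x ++
        (D ++ suf C i (k - i))))))
        (pre C i ++ (A ++ x :: x :: (a :: (List.replicate (2 * n) x ++
        (D ++ suf C i (k - i)))))) := by
      obtain ⟨n', hn'⟩ : ∃ n', n = n' + 1 := ⟨n - 1, by have := hBI.pos; omega⟩
      have h7 := hBI.it (pre C i ++ (A ++ [x])) [a] [] (List.replicate n' x ++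
        (D ++ suf C i (k - i))) x (by
          intro c hc
          simp only [List.append_nil, List.mem_singleton] at hc
          subst hc
          subst hn'
          simp only [List.count_append, List.count_cons, List.replicate_succ,
            List.count_nil] at ha2 ⊢
          omega)
      have e3 : List.replicate n x = x :: List.replicate n' x := by
        rw [hn', List.replicate_succ]
      have e4 : List.replicate (2 * n) x = List.replicate n x ++ x :: List.replicate n' x := by
        rw [← e3, ← List.replicate_add]
        congr 1
        omega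
      rw [e4, e3]
      simp only [List.append_assoc, List.cons_append, List.nil_append] at h7 ⊢
      rw [e3] at h7
      simp only [List.append_assoc, List.cons_append, List.nil_append] at h7 ⊢
      exact h7
    have h8 := hper (pre C i ++ A) (a :: (List.replicate (2 * n) x ++ (D ++ suf C i (k - i))))
    refine θ.trans (b := FreeMonoid.ofList (pre C i ++ (A ++ x :: x :: (a :: (List.replicate (2 * n) x ++
        (D ++ suf C i (k - i))))))) ?_ ?_
    · have h9 := h8.symm
      simp only [hL3, List.append_assoc, List.cons_append, List.nil_append] at h9 ⊢
      exact h9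
    · have h9 := h6.symm
      simp only [hL4, List.append_assoc, List.cons_append, List.nil_append] at h9 ⊢
      exact h9
  exact θ.trans s1 (θ.trans s2' (θ.trans s3' (θ.trans s4'.symm s5)))

end Pool.Agent.MWGI.H8
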